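import Mathlib
import Pool.Agent.H590.NL.Stm

/-!
# SC: weights are scalings (all dimensions, after Pool/Agent/H695/PL/SC.lean)
-/

set_option autoImplicit false

noncomputable section

namespace Pool.Agent.H120.NLSC

open H590NL MeasureTheory

theorem ip_smul {n : ℕ} (c : ℝ) (v x : V n) : ip (c • v) x = c * ip v x := by
  unfold ip
  rw [Finset.mul_sum]
  refine Finset.sum_congr rfl fun i _ => ?_
  rw [Pi.smul_apply, smul_eq_mul, mul_assoc]

theorem det_smul' {n : ℕ} {κ : Type} [Fintype κ] (v : κ → V n) (c : κ → ℝ) (f : Fin n → κ) :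
    (dm (fun k => c k • v k) f).det = (∏ i, c (f i)) * (dm v f).det := by
  have h : dm (fun k => c k • v k) f = Matrix.of fun i j => c (f i) * dm v f i j := by
    ext i j
    rfl
  rw [h, Matrix.det_mul_column]

theorem rpow_p {p b : ℝ} (hp : 1 < p) (hb : 0 < b) : (b ^ (1 / p)) ^ p = b := by
  rw [← Real.rpow_mul hb.le, one_div, inv_mul_cancel₀ (by linarith), Real.rpow_one]

theorem abs_part {p b u e : ℝ} (hb : 0 < b) :
    |b ^ (1 / p) * u| ^ e = (b ^ (1 / p)) ^ e * |u| ^ e := by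
  have h : 0 < b ^ (1 / p) := Real.rpow_pos_of_pos hb _
  rw [abs_mul, abs_of_pos h, Real.mul_rpow h.le (abs_nonneg u)]

theorem Ph_eq {n : ℕ} {κ : Type} [Fintype κ] (p : ℝ) (hp : 1 < p) (v : κ → V n) (b : κ → ℝ)
    (hb : ∀ k, 0 < b k) (x : V n) : Ph p v b x = Ph p (fun k => b k ^ (1 / p) • v k) one x := by
  unfold Ph one
  refine Finset.sum_congr rfl fun k _ => ?_
  rw [ip_smul, abs_part (hb k), rpow_p hp (hb k), one_mul]

theorem sq_part {p b : ℝ} (hp : 1 < p) (hb : 0 < b) :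
    (b ^ (1 / p)) ^ 2 * (b ^ (1 / p)) ^ (p - 2) = b := by
  have h : 0 < b ^ (1 / p) := Real.rpow_pos_of_pos hb _
  have h2 : (b ^ (1 / p)) ^ 2 = (b ^ (1 / p)) ^ (2 : ℝ) := by
    rw [Real.rpow_ofNat]
  rw [h2, ← Real.rpow_add h]
  rw [show (2 : ℝ) + (p - 2) = p by ring]
  exact rpow_p hp hb

theorem DD_eq {n : ℕ} {κ : Type} [Fintype κ] (p : ℝ) (hp : 1 < p) (v : κ → V n) (b : κ → ℝ)
    (hb : ∀ k, 0 < b k) (x : V n) : DD p v b x = DD p (fun k => b k ^ (1 / p) • v k) one x := by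
  unfold DD one
  congr 1
  refine Finset.sum_congr rfl fun f _ => ?_
  rw [det_smul' v (fun k => b k ^ (1 / p)) f, mul_pow, ← Finset.prod_pow,
    mul_comm (∏ i, (b (f i) ^ (1 / p)) ^ 2), mul_assoc, ← Finset.prod_mul_distrib]
  congr 1
  refine Finset.prod_congr rfl fun i _ => ?_
  rw [ip_smul, abs_part (hb (f i))]
  have h1 := sq_part hp (hb (f i))
  calc p * b (f i) * |ip (v (f i)) x| ^ (p - 2)
      = p * ((b (f i) ^ (1 / p)) ^ 2 * (b (f i) ^ (1 / p)) ^ (p - 2)) *
        |ip (v (f i)) x| ^ (p - 2) := by rw [h1]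
    _ = _ := by ring

/-- SC: weights are scalings -/
theorem SC : S_SC := by
  intro n κ _ p hp _ v b hb
  constructor
  · unfold FF
    refine integral_congr_ae (Filter.Eventually.of_forall fun x => ?_)
    show Real.exp (-(Ph p v b x)) = Real.exp (-(Ph p (fun k => b k ^ (1 / p) • v k) one x))
    rw [Ph_eq p hp v b hb x]
  · unfold AA
    refine integral_congr_ae (Filter.Eventually.of_forall fun x => ?_)
    show Real.exp (-(Ph p v b x)) * DD p v b x =
      Real.exp (-(Ph p (fun k => b k ^ (1 / p) • v k) one x)) *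
        DD p (fun k => b k ^ (1 / p) • v k) one x
    rw [Ph_eq p hp v b hb x, DD_eq p hp v b hb x]

end Pool.Agent.H120.NLSC
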